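import Pool.Agent.Helper10.GO.GoalsP2

/-!
# Project GO: the chain rule along an orbit (packet CHN2).
-/

set_option autoImplicit false

open MvPolynomial Filter Topology Pool.Agent.Helper10.GO

noncomputable section

namespace Pool.Agent.Helper64.GO

theorem eval_aeval_pit {R : Type} [CommRing R] {N : ℕ} (g : Fin N → MvPolynomial (Fin N) R)
    (b c : Fin N → R) (h : ∀ i, c i = eval b (g i)) (P : MvPolynomial (Fin N) R) :
    eval b (aeval g P) = eval c P := by
  induction P using MvPolynomial.induction_on with
  | C r => rw [aeval_C, algebraMap_eq, eval_C, eval_C]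
  | add p q hp hq => rw [map_add, map_add, map_add, hp, hq]
  | mul_X p i hp => rw [map_mul, map_mul, map_mul, hp, aeval_X, eval_X, h]

theorem chn2 (h : S_CHN) : S_CHN2 := by
  intro R _ N f a ha hdet n m
  induction m with
  | zero =>
    have h1 : (Matrix.of fun i j => eval (a n) (pderiv j (pit f 0 i))) =
        (1 : Matrix (Fin N) (Fin N) R) := by
      ext i j
      rw [Matrix.of_apply, Matrix.one_apply]
      show eval (a n) (pderiv j (X i)) = _
      by_cases hij : i = j
      · rw [hij, pderiv_X_self, if_pos rfl, map_one]
      · rw [pderiv_X_of_ne hij, if_neg hij, map_zero]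
    rw [h1, Matrix.det_one]
    exact isUnit_one
  | succ m ih =>
    have h1 : (Matrix.of fun i j => eval (a n) (pderiv j (pit f (m + 1) i))) =
        (Matrix.of fun i l => eval (a (n + m)) (pderiv l (f i))) *
          (Matrix.of fun l j => eval (a n) (pderiv j (pit f m l))) := by
      ext i j
      rw [Matrix.mul_apply, Matrix.of_apply]
      show eval (a n) (pderiv j (aeval (pit f m) (f i))) = _
      rw [(h R N (pit f m)).1 (f i) j, map_sum]
      refine Finset.sum_congr rfl fun l _ => ?_
      rw [map_mul, eval_aeval_pit (pit f m) (a n) (a (n + m))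
        (fun i => (h R N f).2.2 a ha n m i)]
      rfl
    have h2 : (Matrix.of fun i l => eval (a (n + m)) (pderiv l (f i))) =
        (eval (a (n + m)) : MvPolynomial (Fin N) R →+* R).mapMatrix (jac f) := by
      ext i j
      rfl
    rw [h1, Matrix.det_mul, h2, ← RingHom.map_det]
    exact (hdet (n + m)).mul ih

end Pool.Agent.Helper64.GO
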